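import Mathlib

/-!
0-1 matrices, containment of patterns, saturated matrices and the saturation function.
-/

namespace Pool.Agent.Lib.MP_db54ba57_co

/-- A 0-1 matrix with `m` rows and `n` columns; the entry `true` is a 1-entry. -/
abbrev Mat (m n : ℕ) : Type := Fin m → Fin n → Bool

variable {m n k l k' l' : ℕ}

/-- A pattern is a 0-1 matrix with at least one 1-entry. -/
def IsPattern (P : Mat k l) : Prop := ∃ i j, P i j = true

/-- `M` contains `P`: some rows and some columns of `M`, in their order, form a submatrix that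
becomes equal to `P` after some of its 1-entries are changed to 0. -/
def Contains (M : Mat m n) (P : Mat k l) : Prop :=
  ∃ (f : Fin k → Fin m) (g : Fin l → Fin n), StrictMono f ∧ StrictMono g ∧
    ∀ i j, P i j = true → M (f i) (g j) = true

/-- The weight of a matrix: its number of 1-entries. -/
def weight (M : Mat m n) : ℕ :=
  (Finset.univ.filter fun p : Fin m × Fin n => M p.1 p.2 = true).card

/-- The matrix `M` with the entry at `(r, c)` changed to 1. -/
def setOne (M : Mat m n) (r : Fin m) (c : Fin n) : Mat m n :=
  fun i j => if i = r ∧ j = c then true else M i j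

/-- `M` is `P`-saturated: it avoids `P`, and changing any single 0-entry to 1 creates `P`. -/
def IsSaturated (P : Mat k l) (M : Mat m n) : Prop :=
  ¬ Contains M P ∧ ∀ r c, M r c = false → Contains (setOne M r c) P

/-- `sat m n P`: the minimum weight of an `m × n` matrix that is `P`-saturated. -/
noncomputable def sat (m n : ℕ) (P : Mat k l) : ℕ :=
  sInf {w | ∃ M : Mat m n, IsSaturated P M ∧ weight M = w}

/-- `P'` is obtained from `P` by inserting interior empty rows and columns: `f` and `g` tell where
the rows and columns of `P` go; all other rows and columns of `P'` are empty and lie strictly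
between two of these, hence strictly between the first and the last one. -/
def IsInteriorInsertion (P : Mat k l) (P' : Mat k' l') : Prop :=
  ∃ (f : Fin k → Fin k') (g : Fin l → Fin l'), StrictMono f ∧ StrictMono g ∧
    (∀ i j, P' (f i) (g j) = P i j) ∧
    (∀ i', (∀ i, f i ≠ i') → (∀ j', P' i' j' = false) ∧ (∃ i, f i < i') ∧ ∃ i, i' < f i) ∧
    (∀ j', (∀ j, g j ≠ j') → (∀ i', P' i' j' = false) ∧ (∃ j, g j < j') ∧ ∃ j, j' < g j)

lemma Contains.mono {M N : Mat m n} {P : Mat k l} (h : Contains M P)
    (hMN : ∀ i j, M i j = true → N i j = true) : Contains N P := by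
  obtain ⟨f, g, hf, hg, h⟩ := h
  exact ⟨f, g, hf, hg, fun i j hij => hMN _ _ (h i j hij)⟩

lemma le_setOne (M : Mat m n) (r : Fin m) (c : Fin n) (i : Fin m) (j : Fin n)
    (h : M i j = true) : setOne M r c i j = true := by
  unfold setOne; split <;> simp [h]

lemma weight_le (M : Mat m n) : weight M ≤ m * n := by
  unfold weight
  calc _ ≤ (Finset.univ : Finset (Fin m × Fin n)).card := Finset.card_filter_le _ _
    _ = m * n := by simp

lemma weight_setOne_lt (M : Mat m n) (r : Fin m) (c : Fin n) (h : M r c = false) :
    weight M < weight (setOne M r c) := by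
  unfold weight
  apply Finset.card_lt_card
  refine ⟨fun p hp => ?_, fun hsub => ?_⟩
  · simp only [Finset.mem_filter, Finset.mem_univ, true_and] at hp ⊢
    exact le_setOne M r c _ _ hp
  · have : (r, c) ∈ (Finset.univ.filter fun p : Fin m × Fin n => M p.1 p.2 = true) := by
      apply hsub
      simp [setOne]
    simp [h] at this

/-- Every matrix avoiding `P` lies below a `P`-saturated one. -/
lemma exists_saturated_above (P : Mat k l) (M : Mat m n) (hM : ¬ Contains M P) :
    ∃ N : Mat m n, IsSaturated P N ∧ ∀ i j, M i j = true → N i j = true := by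
  classical
  -- choose N above M avoiding P of maximal weight
  have hfin : ∃ N : Mat m n, (¬ Contains N P ∧ ∀ i j, M i j = true → N i j = true) ∧
      ∀ N' : Mat m n, (¬ Contains N' P ∧ ∀ i j, M i j = true → N' i j = true) →
        weight N' ≤ weight N := by
    have hne : (Set.univ.toFinset.filter fun N : Mat m n =>
        ¬ Contains N P ∧ ∀ i j, M i j = true → N i j = true).Nonempty :=
      ⟨M, by simp [hM]⟩
    obtain ⟨N, hN, hmax⟩ := Finset.exists_max_image _ weight hne
    simp only [Set.toFinset_univ, Finset.mem_filter, Finset.mem_univ, true_and] at hN hmax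
    exact ⟨N, hN, hmax⟩
  obtain ⟨N, ⟨hNP, hMN⟩, hmax⟩ := hfin
  refine ⟨N, ⟨hNP, fun r c hrc => ?_⟩, hMN⟩
  by_contra hcon
  have := hmax (setOne N r c) ⟨hcon, fun i j hij => le_setOne N r c i j (hMN i j hij)⟩
  have h2 := weight_setOne_lt N r c hrc
  omega

lemma not_contains_zero {P : Mat k l} (hP : IsPattern P) :
    ¬ Contains (fun (_ : Fin m) (_ : Fin n) => false) P := by
  rintro ⟨f, g, -, -, h⟩
  obtain ⟨i, j, hij⟩ := hP
  simpa using h i j hij

lemma exists_saturated {P : Mat k l} (hP : IsPattern P) (m n : ℕ) :
    ∃ N : Mat m n, IsSaturated P N := by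
  obtain ⟨N, hN, -⟩ := exists_saturated_above P (fun (_ : Fin m) (_ : Fin n) => false)
    (not_contains_zero hP)
  exact ⟨N, hN⟩

lemma sat_le_weight {P : Mat k l} {M : Mat m n} (h : IsSaturated P M) :
    sat m n P ≤ weight M := Nat.sInf_le ⟨M, h, rfl⟩

lemma le_sat {P : Mat k l} (hP : IsPattern P) {m n w : ℕ}
    (h : ∀ M : Mat m n, IsSaturated P M → w ≤ weight M) : w ≤ sat m n P := by
  obtain ⟨N, hN⟩ := exists_saturated hP m n
  refine le_csInf ⟨_, N, hN, rfl⟩ ?_
  rintro _ ⟨M, hM, rfl⟩
  exact h M hM

end Pool.Agent.Lib.MP_db54ba57_co
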