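import Pool.Agent.Lib.MP_db54ba57_co.Defs

/-!
A 3 by 4 pattern `P0` and the 4 by 4 pattern `P1` obtained by inserting one empty row:
`sat 5 n P0` is bounded while `n ≤ sat 5 n P1`.
-/

namespace Pool.Agent.Lib.MP_db54ba57_co

/-- The pattern with rows `0100`, `1001`, `0010`. -/
def P0 : Mat 3 4 :=
  ![![false, true, false, false], ![true, false, false, true], ![false, false, true, false]]

/-- The pattern with rows `0100`, `0000`, `1001`, `0010`. -/
def P1 : Mat 4 4 :=
  ![![false, true, false, false], ![false, false, false, false], ![true, false, false, true],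
    ![false, false, true, false]]

lemma insertion : IsInteriorInsertion P0 P1 := by
  refine ⟨![0, 2, 3], id, by decide, by intro a b h; exact h, ?_, ?_, ?_⟩
  · decide
  · decide
  · intro j' h; exact absurd rfl (h j')

lemma contains_P0_iff {m n : ℕ} (M : Mat m n) : Contains M P0 ↔
    ∃ (a b c : Fin m) (w x y z : Fin n), a < b ∧ b < c ∧ w < x ∧ x < y ∧ y < z ∧
      M b w = true ∧ M a x = true ∧ M c y = true ∧ M b z = true := by
  constructor
  · rintro ⟨f, g, hf, hg, h⟩
    exact ⟨f 0, f 1, f 2, g 0, g 1, g 2, g 3, hf (by decide), hf (by decide), hg (by decide),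
      hg (by decide), hg (by decide), h 1 0 rfl, h 0 1 rfl, h 2 2 rfl, h 1 3 rfl⟩
  · rintro ⟨a, b, c, w, x, y, z, hab, hbc, hwx, hxy, hyz, h1, h2, h3, h4⟩
    refine ⟨![a, b, c], ![w, x, y, z], ?_, ?_, ?_⟩
    · rw [Fin.strictMono_iff_lt_succ]
      intro i; fin_cases i <;> assumption
    · rw [Fin.strictMono_iff_lt_succ]
      intro i; fin_cases i <;> assumption
    · intro i j hij
      fin_cases i <;> fin_cases j <;> first | assumption | simp [P0] at hij

lemma contains_P1_iff {m n : ℕ} (M : Mat m n) : Contains M P1 ↔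
    ∃ (a b c : Fin m) (w x y z : Fin n), a.val + 1 < b.val ∧ b < c ∧ w < x ∧ x < y ∧ y < z ∧
      M b w = true ∧ M a x = true ∧ M c y = true ∧ M b z = true := by
  constructor
  · rintro ⟨f, g, hf, hg, h⟩
    refine ⟨f 0, f 2, f 3, g 0, g 1, g 2, g 3, ?_, hf (by decide), hg (by decide),
      hg (by decide), hg (by decide), h 2 0 rfl, h 0 1 rfl, h 3 2 rfl, h 2 3 rfl⟩
    have h1 : (f 0).val < (f 1).val := hf (by decide)
    have h2 : (f 1).val < (f 2).val := hf (by decide)
    omega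
  · rintro ⟨a, b, c, w, x, y, z, hab, hbc, hwx, hxy, hyz, h1, h2, h3, h4⟩
    have hm : a.val + 1 < m := lt_trans hab b.isLt
    refine ⟨![a, ⟨a.val + 1, hm⟩, b, c], ![w, x, y, z], ?_, ?_, ?_⟩
    · rw [Fin.strictMono_iff_lt_succ]
      intro i
      fin_cases i
      · show a.val < a.val + 1
        omega
      · show a.val + 1 < b.val
        exact hab
      · exact hbc
    · rw [Fin.strictMono_iff_lt_succ]
      intro i; fin_cases i <;> assumption
    · intro i j hij
      fin_cases i <;> fin_cases j <;> first | assumption | simp [P1] at hij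

/-- A 1-entry of `setOne M r c` is a 1-entry of `M` or the entry `(r, c)`. -/
lemma setOne_true {m n : ℕ} {M : Mat m n} {r : Fin m} {c : Fin n} {i : Fin m} {j : Fin n}
    (h : setOne M r c i j = true) : (i = r ∧ j = c) ∨ (M i j = true ∧ ¬ (i = r ∧ j = c)) := by
  unfold setOne at h
  split at h
  · left; assumption
  · right; exact ⟨h, by assumption⟩

/-- Every column of a `P1`-saturated matrix with five rows has a 1-entry. -/
lemma column_nonempty {n : ℕ} (M : Mat 5 n) (hM : IsSaturated P1 M) (c : Fin n) :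
    ∃ r, M r c = true := by
  by_contra hcon
  push Not at hcon
  have hc : ∀ r, M r c = false := fun r => by simpa using hcon r
  obtain ⟨hav, hsat⟩ := hM
  rw [contains_P1_iff] at hav
  have av : ∀ (a b d : Fin 5) (w x y z : Fin n), a.val + 1 < b.val → b < d → w < x → x < y →
      y < z → M b w = true → M a x = true → M d y = true → M b z = true → False :=
    fun a b d w x y z h1 h2 h3 h4 h5 h6 h7 h8 h9 =>
      hav ⟨a, b, d, w, x, y, z, h1, h2, h3, h4, h5, h6, h7, h8, h9⟩
  -- row 1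
  have key1 : ∃ w y z : Fin n, w < c ∧ c < y ∧ y < z ∧ M 3 w = true ∧ M 4 y = true ∧
      M 3 z = true := by
    obtain ⟨a, b, d, w, x, y, z, hab, hbd, hwx, hxy, hyz, h1, h2, h3, h4⟩ :=
      (contains_P1_iff _).1 (hsat 1 c (hc 1))
    have hd := d.isLt
    have hbd' : b.val < d.val := hbd
    rcases setOne_true h2 with ⟨ea, ex⟩ | ⟨h2, n2⟩
    · -- the new entry is the entry of row a = 1
      have hb : b = 3 := by
        have : a.val = 1 := by rw [ea]; rfl
        apply Fin.ext; show b.val = 3; omega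
      have hd4 : d = 4 := by
        have : b.val = 3 := by rw [hb]; rfl
        apply Fin.ext; show d.val = 4; omega
      subst ex
      rcases setOne_true h1 with ⟨_, e⟩ | ⟨h1, _⟩
      · exact absurd e hwx.ne
      rcases setOne_true h3 with ⟨_, e⟩ | ⟨h3, _⟩
      · exact absurd e hxy.ne'
      rcases setOne_true h4 with ⟨_, e⟩ | ⟨h4, _⟩
      · exact absurd e (hxy.trans hyz).ne'
      rw [hb] at h1 h4
      rw [hd4] at h3
      exact ⟨w, y, z, hwx, hxy, hyz, h1, h3, h4⟩
    · exfalso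
      rcases setOne_true h1 with ⟨e, _⟩ | ⟨h1, _⟩
      · have : b.val = 1 := by rw [e]; rfl
        omega
      rcases setOne_true h3 with ⟨e, _⟩ | ⟨h3, _⟩
      · have : d.val = 1 := by rw [e]; rfl
        omega
      rcases setOne_true h4 with ⟨e, _⟩ | ⟨h4, _⟩
      · have : b.val = 1 := by rw [e]; rfl
        omega
      exact av a b d w x y z hab hbd hwx hxy hyz h1 h2 h3 h4
  obtain ⟨w1, y1, z1, hw1, hy1, hz1, hM1, hM2, hM3⟩ := key1
  -- row 4
  have key4 : ∃ w x z : Fin n, w < x ∧ x < c ∧ c < z ∧ M 2 w = true ∧ M 0 x = true ∧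
      M 2 z = true := by
    obtain ⟨a, b, d, w, x, y, z, hab, hbd, hwx, hxy, hyz, h1, h2, h3, h4⟩ :=
      (contains_P1_iff _).1 (hsat 4 c (hc 4))
    have hd := d.isLt
    have hbd' : b.val < d.val := hbd
    rcases setOne_true h1 with ⟨e, _⟩ | ⟨k1, _⟩
    · have : b.val = 4 := by rw [e]; rfl
      omega
    rcases setOne_true h4 with ⟨e, _⟩ | ⟨k4, _⟩
    · have : b.val = 4 := by rw [e]; rfl
      omega
    rcases setOne_true h2 with ⟨e, _⟩ | ⟨k2, _⟩
    · have : a.val = 4 := by rw [e]; rfl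
      omega
    rcases setOne_true h3 with ⟨ed, ey⟩ | ⟨k3, _⟩
    · subst ey
      have hb : b.val = 2 ∨ b.val = 3 := by
        have : d.val = 4 := by rw [ed]; rfl
        omega
      rcases hb with hb | hb
      · have hb2 : b = 2 := Fin.ext hb
        have ha0 : a = 0 := by apply Fin.ext; show a.val = 0; omega
        rw [hb2] at k1 k4
        rw [ha0] at k2
        exact ⟨w, x, z, hwx, hxy, hyz, k1, k2, k4⟩
      · exfalso
        have hb3 : b = 3 := Fin.ext hb
        rw [hb3] at k1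
        refine av a 3 4 w x y1 z1 ?_ (by decide) hwx (hxy.trans hy1) hz1 k1 k2 hM2 hM3
        rw [hb] at hab; exact hab
    · exact absurd (av a b d w x y z hab hbd hwx hxy hyz k1 k2 k3 k4) id
  obtain ⟨w4, x4, z4, hw4, hx4, hz4, hM4, hM5, hM6⟩ := key4
  -- row 2
  obtain ⟨a, b, d, w, x, y, z, hab, hbd, hwx, hxy, hyz, h1, h2, h3, h4⟩ :=
    (contains_P1_iff _).1 (hsat 2 c (hc 2))
  have hd := d.isLt
  have hbd' : b.val < d.val := hbd
  rcases setOne_true h2 with ⟨e, _⟩ | ⟨k2, _⟩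
  · have : a.val = 2 := by rw [e]; rfl
    omega
  rcases setOne_true h3 with ⟨e, _⟩ | ⟨k3, _⟩
  · have : d.val = 2 := by rw [e]; rfl
    omega
  rcases setOne_true h1 with ⟨eb, ew⟩ | ⟨k1, _⟩
  · -- the new entry is the left entry of row b = 2
    subst ew
    rcases setOne_true h4 with ⟨_, e⟩ | ⟨k4, _⟩
    · exact absurd e ((hwx.trans hxy).trans hyz).ne'
    rw [eb] at k4 hbd
    exact av 0 2 d w4 x4 y z (by decide) hbd hw4 (hx4.trans (hwx.trans hxy)) hyz hM4 hM5 k3 k4
  · rcases setOne_true h4 with ⟨eb, ez⟩ | ⟨k4, _⟩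
    · subst ez
      rw [eb] at k1 hbd hab
      exact av a 2 d w x y z4 hab hbd hwx hxy (hyz.trans hz4) k1 k2 k3 hM6
    · exact av a b d w x y z hab hbd hwx hxy hyz k1 k2 k3 k4

lemma le_sat_P1 (n : ℕ) : n ≤ sat 5 n P1 := by
  refine le_sat ⟨0, 1, rfl⟩ fun M hM => ?_
  choose r hr using column_nonempty M hM
  unfold weight
  have hinj : Function.Injective fun c : Fin n => (r c, c) := by
    intro c d h
    exact (Prod.ext_iff.1 h).2
  have := Finset.card_le_card_of_injOn (s := (Finset.univ : Finset (Fin n)))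
    (t := Finset.univ.filter fun p : Fin 5 × Fin n => M p.1 p.2 = true)
    (fun c => (r c, c)) (fun c _ => by simp [hr c]) (fun c _ d _ h => hinj h)
  simpa using this

/-- The 5 by 4 matrix whose first two columns are to be put at the left end and whose last two
columns are to be put at the right end. -/
def A : Fin 5 → Fin 4 → Bool :=
  ![![true, true, true, true], ![true, true, true, false], ![false, true, true, true],
    ![true, true, true, true], ![true, true, false, true]]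

/-- The matrix with `t + 5` columns: two columns of `A`, then `t + 1` empty columns, then the
other two columns of `A`. -/
def W (t : ℕ) : Mat 5 (t + 5) := fun r c =>
  if c.val = 0 then A r 0 else if c.val = 1 then A r 1 else
    if c.val = t + 3 then A r 2 else if c.val = t + 4 then A r 3 else false

lemma W_col {t : ℕ} {r : Fin 5} {c : Fin (t + 5)} (h : W t r c = true) :
    (c.val = 0 ∧ A r 0 = true) ∨ (c.val = 1 ∧ A r 1 = true) ∨ (c.val = t + 3 ∧ A r 2 = true) ∨
      (c.val = t + 4 ∧ A r 3 = true) := by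
  unfold W at h
  split_ifs at h with h0 h1 h2 h3
  · exact Or.inl ⟨h0, h⟩
  · exact Or.inr (Or.inl ⟨h1, h⟩)
  · exact Or.inr (Or.inr (Or.inl ⟨h2, h⟩))
  · exact Or.inr (Or.inr (Or.inr ⟨h3, h⟩))

lemma A_avoid : ∀ a b c : Fin 5, a < b → b < c →
    ¬ (A b 0 = true ∧ A a 1 = true ∧ A c 2 = true ∧ A b 3 = true) := by decide

lemma W_avoids (t : ℕ) : ¬ Contains (W t) P0 := by
  rw [contains_P0_iff]
  rintro ⟨a, b, c, w, x, y, z, hab, hbc, hwx, hxy, hyz, h1, h2, h3, h4⟩
  have hwx' : w.val < x.val := hwx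
  have hxy' : x.val < y.val := hxy
  have hyz' : y.val < z.val := hyz
  refine A_avoid a b c hab hbc ?_
  rcases W_col h1 with ⟨e1, i1⟩ | ⟨e1, i1⟩ | ⟨e1, i1⟩ | ⟨e1, i1⟩ <;>
  rcases W_col h2 with ⟨e2, i2⟩ | ⟨e2, i2⟩ | ⟨e2, i2⟩ | ⟨e2, i2⟩ <;>
  rcases W_col h3 with ⟨e3, i3⟩ | ⟨e3, i3⟩ | ⟨e3, i3⟩ | ⟨e3, i3⟩ <;>
  rcases W_col h4 with ⟨e4, i4⟩ | ⟨e4, i4⟩ | ⟨e4, i4⟩ | ⟨e4, i4⟩ <;>
  first
    | exact ⟨i1, i2, i3, i4⟩
    | (exfalso; omega)

lemma W_left0 {t : ℕ} {r : Fin 5} (h : A r 0 = true) : W t r ⟨0, by omega⟩ = true := by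
  simp [W, h]

lemma W_left1 {t : ℕ} {r : Fin 5} (h : A r 1 = true) : W t r ⟨1, by omega⟩ = true := by
  simp [W, h]

lemma W_right2 {t : ℕ} {r : Fin 5} (h : A r 2 = true) : W t r ⟨t + 3, by omega⟩ = true := by
  simp [W, h]

lemma W_right3 {t : ℕ} {r : Fin 5} (h : A r 3 = true) : W t r ⟨t + 4, by omega⟩ = true := by
  simp [W, h]

lemma setOne_self {m n : ℕ} (M : Mat m n) (r : Fin m) (c : Fin n) : setOne M r c r c = true := by
  simp [setOne]

lemma W_creates (t : ℕ) (r : Fin 5) (c : Fin (t + 5)) (h1 : 2 ≤ c.val) (h2 : c.val ≤ t + 2) :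
    Contains (setOne (W t) r c) P0 := by
  rw [contains_P0_iff]
  have L := le_setOne (W t) r c
  have l01 : (⟨0, by omega⟩ : Fin (t + 5)) < ⟨1, by omega⟩ := by
    rw [Fin.lt_def]; show (0 : ℕ) < 1; omega
  have l0c : (⟨0, by omega⟩ : Fin (t + 5)) < c := by rw [Fin.lt_def]; show (0 : ℕ) < c.val; omega
  have l1c : (⟨1, by omega⟩ : Fin (t + 5)) < c := by rw [Fin.lt_def]; show (1 : ℕ) < c.val; omega
  have lc3 : c < (⟨t + 3, by omega⟩ : Fin (t + 5)) := by
    rw [Fin.lt_def]; show c.val < t + 3; omega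
  have lc4 : c < (⟨t + 4, by omega⟩ : Fin (t + 5)) := by
    rw [Fin.lt_def]; show c.val < t + 4; omega
  have l34 : (⟨t + 3, by omega⟩ : Fin (t + 5)) < ⟨t + 4, by omega⟩ := by
    rw [Fin.lt_def]; show t + 3 < t + 4; omega
  fin_cases r
  · -- row 0: new entry is the top entry
    exact ⟨0, 2, 3, ⟨1, by omega⟩, c, ⟨t + 3, by omega⟩, ⟨t + 4, by omega⟩, by decide, by decide,
      l1c, lc3, l34, L _ _ (W_left1 rfl), setOne_self _ _ _, L _ _ (W_right2 rfl),
      L _ _ (W_right3 rfl)⟩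
  · exact ⟨1, 2, 3, ⟨1, by omega⟩, c, ⟨t + 3, by omega⟩, ⟨t + 4, by omega⟩, by decide, by decide,
      l1c, lc3, l34, L _ _ (W_left1 rfl), setOne_self _ _ _, L _ _ (W_right2 rfl),
      L _ _ (W_right3 rfl)⟩
  · exact ⟨0, 1, 2, ⟨0, by omega⟩, ⟨1, by omega⟩, c, ⟨t + 3, by omega⟩, by decide, by decide,
      l01, l1c, lc3, L _ _ (W_left0 rfl), L _ _ (W_left1 rfl), setOne_self _ _ _,
      L _ _ (W_right2 rfl)⟩
  · exact ⟨0, 1, 3, ⟨0, by omega⟩, ⟨1, by omega⟩, c, ⟨t + 3, by omega⟩, by decide, by decide,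
      l01, l1c, lc3, L _ _ (W_left0 rfl), L _ _ (W_left1 rfl), setOne_self _ _ _,
      L _ _ (W_right2 rfl)⟩
  · exact ⟨0, 1, 4, ⟨0, by omega⟩, ⟨1, by omega⟩, c, ⟨t + 3, by omega⟩, by decide, by decide,
      l01, l1c, lc3, L _ _ (W_left0 rfl), L _ _ (W_left1 rfl), setOne_self _ _ _,
      L _ _ (W_right2 rfl)⟩

lemma sat_P0_le (n : ℕ) : sat 5 n P0 ≤ 20 := by
  by_cases hn : n < 5
  · obtain ⟨N, hN⟩ := exists_saturated (P := P0) ⟨0, 1, rfl⟩ 5 n
    have h1 := sat_le_weight hN
    have h2 := weight_le N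
    omega
  · obtain ⟨t, rfl⟩ : ∃ t, n = t + 5 := ⟨n - 5, by omega⟩
    obtain ⟨N, hN, hWN⟩ := exists_saturated_above P0 (W t) (W_avoids t)
    refine (sat_le_weight hN).trans ?_
    have hempty : ∀ (r : Fin 5) (c : Fin (t + 5)), 2 ≤ c.val → c.val ≤ t + 2 →
        N r c ≠ true := by
      intro r c h1 h2 h3
      refine hN.1 ((W_creates t r c h1 h2).mono ?_)
      intro i j hij
      rcases setOne_true hij with ⟨rfl, rfl⟩ | ⟨h, _⟩
      · exact h3
      · exact hWN i j h
    let S : Finset (Fin (t + 5)) := {⟨0, by omega⟩, ⟨1, by omega⟩, ⟨t + 3, by omega⟩,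
      ⟨t + 4, by omega⟩}
    have hS : S.card ≤ 4 := by
      refine (Finset.card_insert_le _ _).trans ?_
      refine Nat.succ_le_succ ((Finset.card_insert_le _ _).trans ?_)
      refine Nat.succ_le_succ ((Finset.card_insert_le _ _).trans ?_)
      simp
    have hsub : (Finset.univ.filter fun p : Fin 5 × Fin (t + 5) => N p.1 p.2 = true) ⊆
        (Finset.univ : Finset (Fin 5)) ×ˢ S := by
      rintro ⟨r, c⟩ hp
      simp only [Finset.mem_filter, Finset.mem_univ, true_and] at hp
      have hc : ¬ (2 ≤ c.val ∧ c.val ≤ t + 2) := fun h => hempty r c h.1 h.2 hp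
      have hlt := c.isLt
      simp only [S, Finset.mem_product, Finset.mem_univ, true_and, Finset.mem_insert,
        Finset.mem_singleton, Fin.ext_iff]
      omega
    calc weight N ≤ ((Finset.univ : Finset (Fin 5)) ×ˢ S).card := Finset.card_le_card hsub
      _ = 5 * S.card := by rw [Finset.card_product]; simp
      _ ≤ 20 := by omega

end Pool.Agent.Lib.MP_db54ba57_co
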