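import Pool.Agent.Lib.MP_db54ba57_co.Defs

/-!
A 7 by 8 pattern `PA` and the 8 by 8 pattern `PB` obtained by inserting one interior empty row:
`sat m n PA ≤ 176` for all `m ≥ 12` and `n ≥ 17`, while `n ≤ sat m n PB` for all `m ≥ 1` and `n`.

Rows of `PA`: `c₁`, an empty row, `w`, `c₂`, `y`, `z`, `c₃`.  In `PB` one more empty row is
inserted between `c₂` and `y`.

Why `PB` is not bounded: let `M` avoid `PB` and let column `c` be empty such that every new 1 in
column `c` creates `PB`.  Call a row `b` good if the last five columns of the pattern are found to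
the right of `c` with `c₂ = b`.  The new 1 in the top row shows that there is a good row; let `b`
be the lowest one.  The new 1 in row `b` plays one of the four 1-entries that are alone in their
column.  Two of them give a good row below `b`.  The third one gives the first three columns of
the pattern to the left of `c` with `c₂ = b`, hence a copy of `PB`.  So does the last one, because
of `(c₂, y, c₃) → (c₁, w, c₂)`; here the inserted empty row is used.

For `PA` a matrix with 12 rows and 17 columns (found by a computer) has an empty row and an empty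
column such that every new 1 in them creates `PA`; these can be repeated.
-/

namespace Pool.Agent.Lib.MP_db54ba57_co

/-- The 7 by 8 pattern with rows `01100000`, `00000000`, `10000000`, `01011100`, `00010000`,
`00000001`, `00001011`. -/
def PA : Mat 7 8 := ![
    ![false, true, true, false, false, false, false, false],
    ![false, false, false, false, false, false, false, false],
    ![true, false, false, false, false, false, false, false],
    ![false, true, false, true, true, true, false, false],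
    ![false, false, false, true, false, false, false, false],
    ![false, false, false, false, false, false, false, true],
    ![false, false, false, false, true, false, true, true]]

/-- The 8 by 8 pattern with rows `01100000`, `00000000`, `10000000`, `01011100`, `00000000`,
`00010000`, `00000001`, `00001011`: one empty row is inserted into `PA`. -/
def PB : Mat 8 8 := ![
    ![false, true, true, false, false, false, false, false],
    ![false, false, false, false, false, false, false, false],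
    ![true, false, false, false, false, false, false, false],
    ![false, true, false, true, true, true, false, false],
    ![false, false, false, false, false, false, false, false],
    ![false, false, false, true, false, false, false, false],
    ![false, false, false, false, false, false, false, true],
    ![false, false, false, false, true, false, true, true]]

lemma insertion_PA_PB : IsInteriorInsertion PA PB := by
  refine ⟨![0, 1, 2, 3, 5, 6, 7], id, by decide, by intro a b h; exact h, ?_, ?_, ?_⟩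
  · decide
  · decide
  · intro j' h; exact absurd rfl (h j')

/-! ### The pattern `PB` -/

section PB

variable {m n : ℕ}

/-- The first three columns of the pattern, left of column `c`, with `c₂ = b`. -/
def HasLeft (M : Mat m n) (c : Fin n) (b : Fin m) : Prop :=
  ∃ (r w : Fin m) (k0 k1 k2 : Fin n), r.val + 2 ≤ w.val ∧ w < b ∧ k0 < k1 ∧ k1 < k2 ∧ k2 < c ∧
    M w k0 = true ∧ M r k1 = true ∧ M b k1 = true ∧ M r k2 = true

/-- The last five columns of the pattern, right of column `c`, with `c₂ = b`. -/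
def HasRight (M : Mat m n) (c : Fin n) (b : Fin m) : Prop :=
  ∃ (y z s : Fin m) (k3 k4 k5 k6 k7 : Fin n), b.val + 2 ≤ y.val ∧ y < z ∧ z < s ∧
    c < k3 ∧ k3 < k4 ∧ k4 < k5 ∧ k5 < k6 ∧ k6 < k7 ∧
    M b k3 = true ∧ M y k3 = true ∧ M b k4 = true ∧ M s k4 = true ∧ M b k5 = true ∧
    M s k6 = true ∧ M z k7 = true ∧ M s k7 = true

lemma contains_PB (M : Mat m n) (r w b y z s : Fin m) (k0 k1 k2 k3 k4 k5 k6 k7 : Fin n)
    (h1 : r.val + 2 ≤ w.val) (h2 : w < b) (h3 : b.val + 2 ≤ y.val) (h4 : y < z) (h5 : z < s)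
    (g0 : k0 < k1) (g1 : k1 < k2) (g2 : k2 < k3) (g3 : k3 < k4) (g4 : k4 < k5) (g5 : k5 < k6)
    (g6 : k6 < k7) (e0 : M w k0 = true) (e1 : M r k1 = true) (e2 : M b k1 = true)
    (e3 : M r k2 = true) (e4 : M b k3 = true) (e5 : M y k3 = true) (e6 : M b k4 = true)
    (e7 : M s k4 = true) (e8 : M b k5 = true) (e9 : M s k6 = true) (e10 : M z k7 = true)
    (e11 : M s k7 = true) : Contains M PB := by
  have hr : r.val + 1 < m := by have := w.isLt; omega
  have hb : b.val + 1 < m := by have := y.isLt; omega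
  refine ⟨![r, ⟨r.val + 1, hr⟩, w, b, ⟨b.val + 1, hb⟩, y, z, s],
    ![k0, k1, k2, k3, k4, k5, k6, k7], ?_, ?_, ?_⟩
  · rw [Fin.strictMono_iff_lt_succ]
    intro i
    fin_cases i
    · show r.val < r.val + 1
      omega
    · show r.val + 1 < w.val
      omega
    · exact h2
    · show b.val < b.val + 1
      omega
    · show b.val + 1 < y.val
      omega
    · exact h4
    · exact h5
  · rw [Fin.strictMono_iff_lt_succ]
    intro i; fin_cases i <;> assumption
  · intro i j hij
    fin_cases i <;> fin_cases j <;> first | assumption | simp [PB] at hij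

/-- What a new 1 in the empty column `c` gives. -/
lemma serve {M : Mat m n} {c : Fin n} (hav : ¬ Contains M PB) (hc : ∀ i, M i c = false)
    {r : Fin m} (hcr : Contains (setOne M r c) PB) :
    (∃ b, r < b ∧ HasRight M c b) ∨ HasLeft M c r := by
  obtain ⟨f, g, hf, hg, h⟩ := hcr
  have old : ∀ (i : Fin m) (k : Fin n), setOne M r c i k = true → (i = r ∧ k = c) ∨
      M i k = true := by
    intro i k hik
    unfold setOne at hik
    split at hik
    · left; assumption
    · right; exact hik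
  have oldc : ∀ (i : Fin m) (k : Fin n), k ≠ c → setOne M r c i k = true → M i k = true := by
    intro i k hk hik
    rcases old i k hik with ⟨_, e⟩ | e
    · exact absurd e hk
    · exact e
  have inj : ∀ i i' k, setOne M r c i k = true → setOne M r c i' k = true → i ≠ i' → k ≠ c := by
    intro i i' k h1 h2 hne hk
    subst hk
    rcases old i k h1 with ⟨e1, _⟩ | e1
    · rcases old i' k h2 with ⟨e2, _⟩ | e2
      · exact hne (e1.trans e2.symm)
      · rw [hc] at e2; exact absurd e2 (by decide)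
    · rw [hc] at e1; exact absurd e1 (by decide)
  -- names
  have lf : ∀ i j : Fin 8, i < j → f i < f j := fun i j hij => hf hij
  have lg : ∀ i j : Fin 8, i < j → g i < g j := fun i j hij => hg hij
  have q01 : (f 0).val < (f 1).val := lf 0 1 (by decide)
  have q12 : (f 1).val < (f 2).val := lf 1 2 (by decide)
  have q34 : (f 3).val < (f 4).val := lf 3 4 (by decide)
  have q45 : (f 4).val < (f 5).val := lf 4 5 (by decide)
  have s1 : (f 0).val + 2 ≤ (f 2).val := by omega
  have s2 : (f 3).val + 2 ≤ (f 5).val := by omega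
  have E0 := h 2 0 rfl
  have E1 := h 0 1 rfl
  have E2 := h 3 1 rfl
  have E3 := h 0 2 rfl
  have E4 := h 3 3 rfl
  have E5 := h 5 3 rfl
  have E6 := h 3 4 rfl
  have E7 := h 7 4 rfl
  have E8 := h 3 5 rfl
  have E9 := h 7 6 rfl
  have E10 := h 6 7 rfl
  have E11 := h 7 7 rfl
  have n1 : g 1 ≠ c := inj _ _ _ E1 E2 (lf 0 3 (by decide)).ne
  have n3 : g 3 ≠ c := inj _ _ _ E4 E5 (lf 3 5 (by decide)).ne
  have n4 : g 4 ≠ c := inj _ _ _ E6 E7 (lf 3 7 (by decide)).ne
  have n7 : g 7 ≠ c := inj _ _ _ E10 E11 (lf 6 7 (by decide)).ne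
  have M1 := oldc _ _ n1 E1
  have M2 := oldc _ _ n1 E2
  have M4 := oldc _ _ n3 E4
  have M5 := oldc _ _ n3 E5
  have M6 := oldc _ _ n4 E6
  have M7 := oldc _ _ n4 E7
  have M10 := oldc _ _ n7 E10
  have M11 := oldc _ _ n7 E11
  by_cases c0 : g 0 = c
  · left
    have hr : f 2 = r := by
      rcases old _ _ E0 with ⟨e, _⟩ | e
      · exact e
      · rw [c0, hc] at e; exact absurd e (by decide)
    have M8 := oldc _ _ (by rw [← c0]; exact (lg 0 5 (by decide)).ne') E8
    have M9 := oldc _ _ (by rw [← c0]; exact (lg 0 6 (by decide)).ne') E9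
    exact ⟨f 3, by rw [← hr]; exact lf 2 3 (by decide), f 5, f 6, f 7, g 3, g 4, g 5, g 6, g 7,
      s2, lf 5 6 (by decide), lf 6 7 (by decide), by rw [← c0]; exact lg 0 3 (by decide),
      lg 3 4 (by decide), lg 4 5 (by decide), lg 5 6 (by decide), lg 6 7 (by decide),
      M4, M5, M6, M7, M8, M9, M10, M11⟩
  have M0 := oldc _ _ c0 E0
  by_cases c2 : g 2 = c
  · left
    have hr : f 0 = r := by
      rcases old _ _ E3 with ⟨e, _⟩ | e
      · exact e
      · rw [c2, hc] at e; exact absurd e (by decide)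
    have M8 := oldc _ _ (by rw [← c2]; exact (lg 2 5 (by decide)).ne') E8
    have M9 := oldc _ _ (by rw [← c2]; exact (lg 2 6 (by decide)).ne') E9
    exact ⟨f 3, by rw [← hr]; exact lf 0 3 (by decide), f 5, f 6, f 7, g 3, g 4, g 5, g 6, g 7,
      s2, lf 5 6 (by decide), lf 6 7 (by decide), by rw [← c2]; exact lg 2 3 (by decide),
      lg 3 4 (by decide), lg 4 5 (by decide), lg 5 6 (by decide), lg 6 7 (by decide),
      M4, M5, M6, M7, M8, M9, M10, M11⟩
  have M3 := oldc _ _ c2 E3
  by_cases c5 : g 5 = c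
  · right
    have hr : f 3 = r := by
      rcases old _ _ E8 with ⟨e, _⟩ | e
      · exact e
      · rw [c5, hc] at e; exact absurd e (by decide)
    rw [← hr]
    exact ⟨f 0, f 2, g 0, g 1, g 2, s1, lf 2 3 (by decide), lg 0 1 (by decide),
      lg 1 2 (by decide), by rw [← c5]; exact lg 2 5 (by decide), M0, M1, M2, M3⟩
  have M8 := oldc _ _ c5 E8
  by_cases c6 : g 6 = c
  · right
    have hr : f 7 = r := by
      rcases old _ _ E9 with ⟨e, _⟩ | e
      · exact e
      · rw [c6, hc] at e; exact absurd e (by decide)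
    rw [← hr]
    exact ⟨f 3, f 5, g 3, g 4, g 5, s2, lf 5 7 (by decide), lg 3 4 (by decide),
      lg 4 5 (by decide), by rw [← c6]; exact lg 5 6 (by decide), M5, M6, M7, M8⟩
  have M9 := oldc _ _ c6 E9
  exact absurd (contains_PB M (f 0) (f 2) (f 3) (f 5) (f 6) (f 7) (g 0) (g 1) (g 2) (g 3) (g 4)
    (g 5) (g 6) (g 7) s1 (lf 2 3 (by decide)) s2 (lf 5 6 (by decide)) (lf 6 7 (by decide))
    (lg 0 1 (by decide)) (lg 1 2 (by decide)) (lg 2 3 (by decide)) (lg 3 4 (by decide))
    (lg 4 5 (by decide)) (lg 5 6 (by decide)) (lg 6 7 (by decide))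
    M0 M1 M2 M3 M4 M5 M6 M7 M8 M9 M10 M11) hav

/-- Every column of a `PB`-saturated matrix with at least one row has a 1-entry. -/
lemma column_nonempty_PB (hm : 1 ≤ m) (M : Mat m n) (hM : IsSaturated PB M) (c : Fin n) :
    ∃ r, M r c = true := by
  classical
  by_contra hcon
  push Not at hcon
  have hc : ∀ r, M r c = false := fun r => by simpa using hcon r
  obtain ⟨hav, hsat⟩ := hM
  have key : ∀ r, (∃ b, r < b ∧ HasRight M c b) ∨ HasLeft M c r := fun r =>
    serve hav hc (hsat r c (hc r))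
  have hne : (Finset.univ.filter fun b : Fin m => HasRight M c b).Nonempty := by
    rcases key ⟨0, hm⟩ with ⟨b, _, hb⟩ | ⟨r, w, _, _, _, _, hw, _⟩
    · exact ⟨b, by simpa using hb⟩
    · exact absurd hw (by rw [Fin.lt_def]; exact Nat.not_lt_zero _)
  obtain ⟨b, hb, hmax⟩ := Finset.exists_max_image _ (fun b : Fin m => b) hne
  simp only [Finset.mem_filter, Finset.mem_univ, true_and] at hb hmax
  rcases key b with ⟨b', hlt, hb'⟩ | hl
  · exact absurd (hmax b' hb') (not_le.2 hlt)
  · obtain ⟨r, w, k0, k1, k2, a1, a2, a3, a4, a5, a6, a7, a8, a9⟩ := hl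
    obtain ⟨y, z, s, k3, k4, k5, k6, k7, b1, b2, b3, b4, b5, b6, b7, b8, b9, b10, b11, b12,
      b13, b14, b15, b16⟩ := hb
    exact hav (contains_PB M r w b y z s k0 k1 k2 k3 k4 k5 k6 k7 a1 a2 b1 b2 b3 a3 a4
      (a5.trans b4) b5 b6 b7 b8 a6 a7 a8 a9 b9 b10 b11 b12 b13 b14 b15 b16)

lemma le_sat_PB (hm : 1 ≤ m) (n : ℕ) : n ≤ sat m n PB := by
  refine le_sat ⟨0, 1, rfl⟩ fun M hM => ?_
  choose r hr using column_nonempty_PB hm M hM
  unfold weight
  have hinj : Function.Injective fun c : Fin n => (r c, c) := by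
    intro c d h
    exact (Prod.ext_iff.1 h).2
  have := Finset.card_le_card_of_injOn (s := (Finset.univ : Finset (Fin n)))
    (t := Finset.univ.filter fun p : Fin m × Fin n => M p.1 p.2 = true)
    (fun c => (r c, c)) (fun c _ => by simp [hr c]) (fun c _ d _ h => hinj h)
  simpa using this

end PB

/-! ### The pattern `PA`: a finite matrix -/

/-- The matrix with 12 rows and 17 columns, entry in row `r < 12` and column `k < 17`:
```
01111000000011111
01010110000011111
10110010000011111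
01011001011000111
00011111001100010
00000000010000000
00000000000000000
10001010011111110
10111110000010000
11111000010000001
01100011010010000
11100100000011011
```
-/
def A0 (r k : ℕ) : Bool := Nat.testBit 21701321008543174275647269795296772072423900970166126294462494 (17 * r + k)

/-- The first number from `s` on (at most `f` steps) with property `p`. -/
def nx (p : ℕ → Bool) : ℕ → ℕ → ℕ
  | 0, s => s
  | f + 1, s => bif p s then s else nx p f (s + 1)

lemma nx_le {p : ℕ → Bool} : ∀ (f s k : ℕ), s ≤ k → p k = true → nx p f s ≤ k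
  | 0, s, k, h, _ => h
  | f + 1, s, k, h, hp => by
    unfold nx
    cases hs : p s with
    | true => simpa using h
    | false =>
      have hne : s ≠ k := by rintro rfl; rw [hs] at hp; exact absurd hp (by decide)
      simpa using nx_le f (s + 1) k (by omega) hp

/-- The first number in `[s, 17)` with property `p` (17 or more if there is none). -/
def nxt (p : ℕ → Bool) (s : ℕ) : ℕ := nx p (17 - s) s

lemma nxt_le {p : ℕ → Bool} {s k : ℕ} (h : s ≤ k) (hp : p k = true) : nxt p s ≤ k :=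
  nx_le _ _ _ h hp

def pre (r w b : ℕ) : ℕ :=
  nxt (fun k => A0 r k) (nxt (fun k => A0 r k && A0 b k) (nxt (fun k => A0 w k) 0 + 1) + 1)

def Etab (b : ℕ) : ℕ := [17, 17, 17, 2, 4, 17, 17, 12, 3, 2, 2, 2].getD b 17

def post (b y z s : ℕ) : ℕ :=
  nxt (fun k => A0 z k && A0 s k) (nxt (fun k => A0 s k) (nxt (fun k => A0 b k)
    (nxt (fun k => A0 b k && A0 s k) (nxt (fun k => A0 b k && A0 y k) (Etab b + 1) + 1) + 1)
      + 1) + 1)

lemma pre_chk : ∀ b < 12, ∀ w < b, ∀ r < w, r + 2 ≤ w → Etab b ≤ pre r w b := by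
  decide +kernel

lemma post_chk : ∀ s < 12, ∀ z < s, ∀ y < z, ∀ b < y, 17 ≤ post b y z s := by
  decide +kernel

lemma A0_avoid (r w b y z s k0 k1 k2 k3 k4 k5 k6 k7 : ℕ) (h1 : r + 2 ≤ w) (h2 : w < b)
    (h3 : b < y) (h4 : y < z) (h5 : z < s) (h6 : s < 12) (g0 : k0 < k1) (g1 : k1 < k2)
    (g2 : k2 < k3) (g3 : k3 < k4) (g4 : k4 < k5) (g5 : k5 < k6) (g6 : k6 < k7) (g7 : k7 < 17)
    (e0 : A0 w k0 = true) (e1 : A0 r k1 = true) (e2 : A0 b k1 = true)
    (e3 : A0 r k2 = true) (e4 : A0 b k3 = true) (e5 : A0 y k3 = true) (e6 : A0 b k4 = true)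
    (e7 : A0 s k4 = true) (e8 : A0 b k5 = true) (e9 : A0 s k6 = true) (e10 : A0 z k7 = true)
    (e11 : A0 s k7 = true) : False := by
  have p0 : nxt (fun k => A0 w k) 0 ≤ k0 := nxt_le (Nat.zero_le _) e0
  have p1 : nxt (fun k => A0 r k && A0 b k) (nxt (fun k => A0 w k) 0 + 1) ≤ k1 :=
    nxt_le (by omega) (by simp [e1, e2])
  have p2 : pre r w b ≤ k2 := nxt_le (by omega) e3
  have c1 := pre_chk b (by omega) w h2 r (by omega) h1
  have q3 : nxt (fun k => A0 b k && A0 y k) (Etab b + 1) ≤ k3 :=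
    nxt_le (by omega) (by simp [e4, e5])
  have q4 : nxt (fun k => A0 b k && A0 s k) (nxt (fun k => A0 b k && A0 y k) (Etab b + 1) + 1)
      ≤ k4 := nxt_le (by omega) (by simp [e6, e7])
  have q5 : nxt (fun k => A0 b k) (nxt (fun k => A0 b k && A0 s k)
      (nxt (fun k => A0 b k && A0 y k) (Etab b + 1) + 1) + 1) ≤ k5 := nxt_le (by omega) e8
  have q6 : nxt (fun k => A0 s k) (nxt (fun k => A0 b k) (nxt (fun k => A0 b k && A0 s k)
      (nxt (fun k => A0 b k && A0 y k) (Etab b + 1) + 1) + 1) + 1) ≤ k6 :=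
    nxt_le (by omega) e9
  have q7 : post b y z s ≤ k7 := nxt_le (by omega) (by simp [e10, e11])
  have c2 := post_chk s h6 z h5 y h4 b h3
  omega

lemma A0_row6 : ∀ k < 17, A0 6 k = false := by decide +kernel

lemma A0_col8 : ∀ r < 12, A0 r 8 = false := by decide +kernel

/-- The matrix with 12 rows and 17 columns. -/
def Am : Mat 12 17 := fun i j => A0 i j

def FA : Fin 12 → Fin 7 → Fin 12 := ![
    ![0, 1, 2, 7, 8, 9, 11],
    ![1, 2, 3, 7, 8, 9, 11],
    ![2, 3, 4, 7, 8, 9, 11],
    ![0, 1, 2, 3, 4, 7, 10],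
    ![0, 1, 2, 4, 7, 8, 10],
    ![3, 4, 5, 7, 8, 9, 11],
    ![3, 4, 6, 7, 8, 9, 11],
    ![0, 1, 2, 3, 4, 5, 7],
    ![0, 1, 2, 3, 4, 7, 8],
    ![0, 1, 2, 3, 4, 5, 9],
    ![0, 1, 2, 4, 8, 9, 10],
    ![0, 1, 2, 8, 9, 10, 11]]

def GA : Fin 12 → Fin 8 → Fin 17 := ![
    ![0, 4, 8, 12, 13, 14, 15, 16],
    ![1, 6, 8, 12, 13, 14, 15, 16],
    ![3, 6, 8, 12, 13, 14, 15, 16],
    ![0, 1, 2, 3, 7, 8, 9, 12],
    ![0, 3, 4, 6, 7, 8, 9, 12],
    ![8, 9, 10, 12, 13, 14, 15, 16],
    ![8, 9, 10, 12, 13, 14, 15, 16],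
    ![0, 1, 2, 3, 4, 7, 8, 9],
    ![0, 1, 2, 3, 4, 7, 8, 12],
    ![0, 1, 2, 3, 4, 7, 8, 9],
    ![0, 3, 4, 5, 6, 7, 8, 9],
    ![0, 2, 3, 4, 5, 6, 8, 12]]

def FB : Fin 17 → Fin 7 → Fin 12 := ![
    ![3, 4, 6, 7, 8, 9, 11],
    ![3, 4, 6, 7, 8, 9, 11],
    ![3, 4, 6, 7, 8, 9, 11],
    ![3, 4, 6, 7, 8, 9, 11],
    ![3, 4, 6, 7, 8, 9, 11],
    ![0, 1, 2, 4, 6, 7, 10],
    ![3, 4, 6, 7, 8, 9, 11],
    ![3, 4, 6, 7, 8, 9, 11],
    ![3, 4, 6, 7, 8, 9, 11],
    ![4, 5, 6, 7, 8, 9, 11],
    ![0, 1, 2, 3, 4, 6, 7],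
    ![0, 1, 2, 3, 4, 6, 7],
    ![0, 1, 2, 3, 4, 6, 7],
    ![0, 1, 2, 3, 4, 6, 7],
    ![0, 1, 2, 3, 4, 6, 7],
    ![0, 1, 2, 3, 4, 6, 7],
    ![0, 1, 2, 3, 4, 6, 9]]

def GB : Fin 17 → Fin 8 → Fin 17 := ![
    ![0, 4, 7, 12, 13, 14, 15, 16],
    ![1, 4, 7, 12, 13, 14, 15, 16],
    ![2, 4, 7, 12, 13, 14, 15, 16],
    ![3, 4, 7, 12, 13, 14, 15, 16],
    ![4, 9, 10, 12, 13, 14, 15, 16],
    ![0, 3, 4, 5, 6, 7, 9, 12],
    ![6, 9, 10, 12, 13, 14, 15, 16],
    ![7, 9, 10, 12, 13, 14, 15, 16],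
    ![8, 9, 10, 12, 13, 14, 15, 16],
    ![9, 10, 11, 12, 13, 14, 15, 16],
    ![0, 1, 2, 3, 4, 7, 9, 10],
    ![0, 1, 2, 3, 4, 7, 9, 11],
    ![0, 1, 2, 3, 4, 7, 9, 12],
    ![0, 1, 2, 3, 4, 7, 9, 13],
    ![0, 1, 2, 3, 4, 7, 9, 14],
    ![0, 1, 2, 3, 4, 7, 9, 15],
    ![0, 1, 2, 3, 4, 7, 9, 16]]

lemma certA_chk : ∀ a : Fin 12, (∀ i j : Fin 7, i < j → FA a i < FA a j) ∧
    (∀ i j : Fin 8, i < j → GA a i < GA a j) ∧
    ∀ i j, PA i j = true → setOne Am a 8 (FA a i) (GA a j) = true := by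
  decide +kernel

lemma certB_chk : ∀ b : Fin 17, (∀ i j : Fin 7, i < j → FB b i < FB b j) ∧
    (∀ i j : Fin 8, i < j → GB b i < GB b j) ∧
    ∀ i j, PA i j = true → setOne Am 6 b (FB b i) (GB b j) = true := by
  decide +kernel

lemma certA (a : Fin 12) : Contains (setOne Am a 8) PA :=
  ⟨FA a, GA a, fun i j h => (certA_chk a).1 i j h, fun i j h => (certA_chk a).2.1 i j h,
    (certA_chk a).2.2⟩

lemma certB (b : Fin 17) : Contains (setOne Am 6 b) PA :=
  ⟨FB b, GB b, fun i j h => (certB_chk b).1 i j h, fun i j h => (certB_chk b).2.1 i j h,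
    (certB_chk b).2.2⟩

/-! ### Repeating the empty row and the empty column -/

section PA

/-- Row 6 of 12 is repeated so that there are `m` rows. -/
def cr (m i : ℕ) : ℕ := if i < 6 then i else if i + 5 < m then 6 else i + 12 - m

/-- Column 8 of 17 is repeated so that there are `n` columns. -/
def cc (n j : ℕ) : ℕ := if j < 8 then j else if j + 8 < n then 8 else j + 17 - n

lemma cr_lt {m i : ℕ} (hm : 12 ≤ m) (hi : i < m) : cr m i < 12 := by
  unfold cr; split_ifs <;> omega

lemma cc_lt {n j : ℕ} (hn : 17 ≤ n) (hj : j < n) : cc n j < 17 := by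
  unfold cc; split_ifs <;> omega

lemma cr_mono {m i i' : ℕ} (hm : 12 ≤ m) (hi' : i' < m) (h : i < i') (h1 : cr m i ≠ 6)
    (h2 : cr m i' ≠ 6) : cr m i < cr m i' := by
  unfold cr at *; split_ifs at * <;> omega

lemma cr_mono2 {m i i' : ℕ} (hm : 12 ≤ m) (hi' : i' < m) (h : i + 2 ≤ i') (h1 : cr m i ≠ 6)
    (h2 : cr m i' ≠ 6) : cr m i + 2 ≤ cr m i' := by
  unfold cr at *; split_ifs at * <;> omega

lemma cc_mono {n j j' : ℕ} (hn : 17 ≤ n) (hj' : j' < n) (h : j < j') (h1 : cc n j ≠ 8)
    (h2 : cc n j' ≠ 8) : cc n j < cc n j' := by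
  unfold cc at *; split_ifs at * <;> omega

/-- The matrix `Am` with row 6 and column 8 repeated. -/
def Wm (m n : ℕ) : Mat m n := fun i j => A0 (cr m i) (cc n j)

variable {m n : ℕ}

lemma Wm_ne (hm : 12 ≤ m) (hn : 17 ≤ n) {i : Fin m} {j : Fin n} (h : Wm m n i j = true) :
    cr m i ≠ 6 ∧ cc n j ≠ 8 := by
  unfold Wm at h
  constructor
  · intro e
    rw [e, A0_row6 _ (cc_lt hn j.isLt)] at h
    exact absurd h (by decide)
  · intro e
    rw [e, A0_col8 _ (cr_lt hm i.isLt)] at h
    exact absurd h (by decide)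

lemma Wm_avoids (hm : 12 ≤ m) (hn : 17 ≤ n) : ¬ Contains (Wm m n) PA := by
  rintro ⟨f, g, hf, hg, h⟩
  have E0 := h 2 0 rfl
  have E1 := h 0 1 rfl
  have E2 := h 3 1 rfl
  have E3 := h 0 2 rfl
  have E4 := h 3 3 rfl
  have E5 := h 4 3 rfl
  have E6 := h 3 4 rfl
  have E7 := h 6 4 rfl
  have E8 := h 3 5 rfl
  have E9 := h 6 6 rfl
  have E10 := h 5 7 rfl
  have E11 := h 6 7 rfl
  have lf : ∀ i j : Fin 7, i < j → (f i).val < (f j).val := fun i j hij => hf hij
  have lg : ∀ i j : Fin 8, i < j → (g i).val < (g j).val := fun i j hij => hg hij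
  have a01 := lf 0 1 (by decide)
  have a12 := lf 1 2 (by decide)
  refine A0_avoid (cr m (f 0)) (cr m (f 2)) (cr m (f 3)) (cr m (f 4)) (cr m (f 5)) (cr m (f 6))
    (cc n (g 0)) (cc n (g 1)) (cc n (g 2)) (cc n (g 3)) (cc n (g 4)) (cc n (g 5)) (cc n (g 6))
    (cc n (g 7)) ?_ ?_ ?_ ?_ ?_ (cr_lt hm (f 6).isLt) ?_ ?_ ?_ ?_ ?_ ?_ ?_
    (cc_lt hn (g 7).isLt) E0 E1 E2 E3 E4 E5 E6 E7 E8 E9 E10 E11
  · exact cr_mono2 hm (f 2).isLt (by omega) (Wm_ne hm hn E1).1 (Wm_ne hm hn E0).1
  · exact cr_mono hm (f 3).isLt (lf 2 3 (by decide)) (Wm_ne hm hn E0).1 (Wm_ne hm hn E2).1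
  · exact cr_mono hm (f 4).isLt (lf 3 4 (by decide)) (Wm_ne hm hn E2).1 (Wm_ne hm hn E5).1
  · exact cr_mono hm (f 5).isLt (lf 4 5 (by decide)) (Wm_ne hm hn E5).1 (Wm_ne hm hn E10).1
  · exact cr_mono hm (f 6).isLt (lf 5 6 (by decide)) (Wm_ne hm hn E10).1 (Wm_ne hm hn E11).1
  · exact cc_mono hn (g 1).isLt (lg 0 1 (by decide)) (Wm_ne hm hn E0).2 (Wm_ne hm hn E1).2
  · exact cc_mono hn (g 2).isLt (lg 1 2 (by decide)) (Wm_ne hm hn E1).2 (Wm_ne hm hn E3).2
  · exact cc_mono hn (g 3).isLt (lg 2 3 (by decide)) (Wm_ne hm hn E3).2 (Wm_ne hm hn E4).2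
  · exact cc_mono hn (g 4).isLt (lg 3 4 (by decide)) (Wm_ne hm hn E4).2 (Wm_ne hm hn E6).2
  · exact cc_mono hn (g 5).isLt (lg 4 5 (by decide)) (Wm_ne hm hn E6).2 (Wm_ne hm hn E8).2
  · exact cc_mono hn (g 6).isLt (lg 5 6 (by decide)) (Wm_ne hm hn E8).2 (Wm_ne hm hn E9).2
  · exact cc_mono hn (g 7).isLt (lg 6 7 (by decide)) (Wm_ne hm hn E9).2 (Wm_ne hm hn E10).2

lemma exists_rowEmb (hm : 12 ≤ m) (i : Fin m) : ∃ φ : Fin 12 → Fin m, StrictMono φ ∧
    (∀ x, cr m (φ x) = x.val) ∧ φ ⟨cr m i, cr_lt hm i.isLt⟩ = i := by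
  have hi := i.isLt
  let t : ℕ := if cr m i = 6 then i.val else 6
  have ht : 6 ≤ t ∧ t + 5 < m := by
    show 6 ≤ (if cr m i = 6 then i.val else 6) ∧ (if cr m i = 6 then i.val else 6) + 5 < m
    unfold cr; split_ifs <;> omega
  refine ⟨fun x => ⟨if x.val < 6 then x.val else if x.val = 6 then t else x.val + (m - 12), ?_⟩,
    ?_, ?_, ?_⟩
  · have := x.isLt
    split_ifs <;> omega
  · intro x x' hx
    have hx' : x.val < x'.val := hx
    have := x'.isLt
    show (if x.val < 6 then x.val else if x.val = 6 then t else x.val + (m - 12)) <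
      (if x'.val < 6 then x'.val else if x'.val = 6 then t else x'.val + (m - 12))
    split_ifs <;> omega
  · intro x
    have := x.isLt
    show cr m (if x.val < 6 then x.val else if x.val = 6 then t else x.val + (m - 12)) = x.val
    unfold cr; split_ifs <;> omega
  · apply Fin.ext
    show (if cr m i < 6 then cr m i else if cr m i = 6 then
      (if cr m i = 6 then i.val else 6) else cr m i + (m - 12)) = i.val
    unfold cr; split_ifs <;> omega

lemma exists_colEmb (hn : 17 ≤ n) (j : Fin n) : ∃ ψ : Fin 17 → Fin n, StrictMono ψ ∧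
    (∀ x, cc n (ψ x) = x.val) ∧ ψ ⟨cc n j, cc_lt hn j.isLt⟩ = j := by
  have hj := j.isLt
  let t : ℕ := if cc n j = 8 then j.val else 8
  have ht : 8 ≤ t ∧ t + 8 < n := by
    show 8 ≤ (if cc n j = 8 then j.val else 8) ∧ (if cc n j = 8 then j.val else 8) + 8 < n
    unfold cc; split_ifs <;> omega
  refine ⟨fun x => ⟨if x.val < 8 then x.val else if x.val = 8 then t else x.val + (n - 17), ?_⟩,
    ?_, ?_, ?_⟩
  · have := x.isLt
    split_ifs <;> omega
  · intro x x' hx
    have hx' : x.val < x'.val := hx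
    have := x'.isLt
    show (if x.val < 8 then x.val else if x.val = 8 then t else x.val + (n - 17)) <
      (if x'.val < 8 then x'.val else if x'.val = 8 then t else x'.val + (n - 17))
    split_ifs <;> omega
  · intro x
    have := x.isLt
    show cc n (if x.val < 8 then x.val else if x.val = 8 then t else x.val + (n - 17)) = x.val
    unfold cc; split_ifs <;> omega
  · apply Fin.ext
    show (if cc n j < 8 then cc n j else if cc n j = 8 then
      (if cc n j = 8 then j.val else 8) else cc n j + (n - 17)) = j.val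
    unfold cc; split_ifs <;> omega

/-- A new 1 of `Wm` in a repeated row or column creates `PA`. -/
lemma Wm_creates (hm : 12 ≤ m) (hn : 17 ≤ n) (i : Fin m) (j : Fin n)
    (h : cr m i = 6 ∨ cc n j = 8) : Contains (setOne (Wm m n) i j) PA := by
  obtain ⟨φ, hφ, hφ1, hφ2⟩ := exists_rowEmb hm i
  obtain ⟨ψ, hψ, hψ1, hψ2⟩ := exists_colEmb hn j
  have base : Contains (setOne Am ⟨cr m i, cr_lt hm i.isLt⟩ ⟨cc n j, cc_lt hn j.isLt⟩) PA := by
    rcases h with h | h
    · have : (⟨cr m i, cr_lt hm i.isLt⟩ : Fin 12) = 6 := Fin.ext h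
      rw [this]; exact certB _
    · have : (⟨cc n j, cc_lt hn j.isLt⟩ : Fin 17) = 8 := Fin.ext h
      rw [this]; exact certA _
  obtain ⟨f, g, hf, hg, hfg⟩ := base
  refine ⟨φ ∘ f, ψ ∘ g, hφ.comp hf, hψ.comp hg, fun x y hxy => ?_⟩
  have := hfg x y hxy
  unfold setOne at this ⊢
  show (if φ (f x) = i ∧ ψ (g y) = j then true else
    A0 (cr m (φ (f x))) (cc n (ψ (g y)))) = true
  split at this
  · rename_i e
    rw [if_pos]
    exact ⟨by rw [e.1, hφ2], by rw [e.2, hψ2]⟩
  · split
    · rfl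
    · rw [hφ1, hψ1]; exact this

lemma card_rows (hm : 12 ≤ m) : (Finset.univ.filter fun i : Fin m => cr m i ≠ 6).card ≤ 11 := by
  have : ((Finset.range 12).erase 6).card = 11 := by decide
  rw [← this]
  refine Finset.card_le_card_of_injOn (fun i : Fin m => cr m i) ?_ ?_
  · intro i hi
    simp only [Finset.coe_filter, Finset.mem_univ, true_and, Set.mem_ofPred_eq] at hi
    simp only [Finset.coe_erase, Finset.coe_range, Set.mem_sdiff, Set.mem_Iio,
      Set.mem_singleton_iff]
    exact ⟨cr_lt hm i.isLt, hi⟩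
  · intro i hi i' hi' he
    simp only [Finset.coe_filter, Finset.mem_univ, true_and, Set.mem_ofPred_eq] at hi hi'
    rcases lt_trichotomy i i' with h | h | h
    · exact absurd he (cr_mono hm i'.isLt h hi hi').ne
    · exact h
    · exact absurd he (cr_mono hm i.isLt h hi' hi).ne'

lemma card_cols (hn : 17 ≤ n) : (Finset.univ.filter fun j : Fin n => cc n j ≠ 8).card ≤ 16 := by
  have : ((Finset.range 17).erase 8).card = 16 := by decide
  rw [← this]
  refine Finset.card_le_card_of_injOn (fun j : Fin n => cc n j) ?_ ?_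
  · intro i hi
    simp only [Finset.coe_filter, Finset.mem_univ, true_and, Set.mem_ofPred_eq] at hi
    simp only [Finset.coe_erase, Finset.coe_range, Set.mem_sdiff, Set.mem_Iio,
      Set.mem_singleton_iff]
    exact ⟨cc_lt hn i.isLt, hi⟩
  · intro i hi i' hi' he
    simp only [Finset.coe_filter, Finset.mem_univ, true_and, Set.mem_ofPred_eq] at hi hi'
    rcases lt_trichotomy i i' with h | h | h
    · exact absurd he (cc_mono hn i'.isLt h hi hi').ne
    · exact h
    · exact absurd he (cc_mono hn i.isLt h hi' hi).ne'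

lemma sat_PA_le (hm : 12 ≤ m) (hn : 17 ≤ n) : sat m n PA ≤ 176 := by
  obtain ⟨N, hN, hWN⟩ := exists_saturated_above PA (Wm m n) (Wm_avoids hm hn)
  refine (sat_le_weight hN).trans ?_
  have hempty : ∀ (i : Fin m) (j : Fin n), (cr m i = 6 ∨ cc n j = 8) → N i j ≠ true := by
    intro i j h h3
    refine hN.1 ((Wm_creates hm hn i j h).mono ?_)
    intro x y hxy
    unfold setOne at hxy
    split at hxy
    · rename_i e; rw [e.1, e.2]; exact h3
    · exact hWN x y hxy
  have hsub : (Finset.univ.filter fun p : Fin m × Fin n => N p.1 p.2 = true) ⊆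
      (Finset.univ.filter fun i : Fin m => cr m i ≠ 6) ×ˢ
        (Finset.univ.filter fun j : Fin n => cc n j ≠ 8) := by
    rintro ⟨i, j⟩ hp
    simp only [Finset.mem_filter, Finset.mem_univ, true_and, Finset.mem_product] at hp ⊢
    exact ⟨fun e => hempty i j (Or.inl e) hp, fun e => hempty i j (Or.inr e) hp⟩
  calc weight N ≤ _ := Finset.card_le_card hsub
    _ = (Finset.univ.filter fun i : Fin m => cr m i ≠ 6).card *
        (Finset.univ.filter fun j : Fin n => cc n j ≠ 8).card := Finset.card_product _ _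
    _ ≤ 11 * 16 := Nat.mul_le_mul (card_rows hm) (card_cols hn)
    _ = 176 := rfl

end PA

end Pool.Agent.Lib.MP_db54ba57_co
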